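import Mathlib

set_option autoImplicit false

/-! # A positive-fraction version of Kirchberger's theorem -/

namespace Pool.Agent.Results.MP_ff3a4f_co.NearlyAllSeparated

open Finset

/-- Some affine hyperplane `{x | a ⬝ᵥ x = c}` of `ℝ^d` (with normal vector `a ≠ 0`) has `P` in one of
its open half-spaces and `Q` in the other. -/
def Separated {d : ℕ} (P Q : Finset (Fin d → ℝ)) : Prop :=
  ∃ (a : Fin d → ℝ) (c : ℝ), a ≠ 0 ∧ (∀ x ∈ P, c < a ⬝ᵥ x) ∧ (∀ x ∈ Q, a ⬝ᵥ x < c)

open Classical in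
/-- The number of good `(d+2)`-element subsets `S` of `A ∪ B`: those for which some hyperplane
separates `A ∩ S` from `B ∩ S`. -/
noncomputable def numGood {d : ℕ} (A B : Finset (Fin d → ℝ)) : ℕ :=
  (((A ∪ B).powersetCard (d + 2)).filter fun S => Separated (A ∩ S) (B ∩ S)).card

section core

variable {ι F : Type} [NormedAddCommGroup F] [InnerProductSpace ℝ F] [FiniteDimensional ℝ F]

/-- the vectors `u x`, `x ∈ S`, lie in an open half-space with the origin on its boundary -/
def Pos (u : ι → F) (S : Finset ι) : Prop := ∃ w : F, ∀ x ∈ S, 0 < inner ℝ w (u x)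

theorem carath (u : ι → F) (S : Finset ι) (t : ℕ) (ht : Module.finrank ℝ F + 1 = t)
    (hS : t ≤ S.card) (y : F) (hy : y ∈ convexHull ℝ (u '' (S : Set ι))) :
    ∃ T ⊆ S, T.card = t ∧ y ∈ convexHull ℝ (u '' (T : Set ι)) := by
  classical
  rw [convexHull_eq_union] at hy
  simp only [Set.mem_iUnion] at hy
  obtain ⟨c, hc, hind, hy⟩ := hy
  have hcard : c.card ≤ t := by
    have h1 := hind.card_le_finrank_succ
    have h2 := Submodule.finrank_le (vectorSpan ℝ (Set.range ((↑) : c → F)))
    rw [Fintype.card_coe] at h1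
    omega
  have hg : ∀ z : c, ∃ x ∈ S, u x = z.1 := by
    intro z
    obtain ⟨x, hx, hxz⟩ := hc z.2
    exact ⟨x, hx, hxz⟩
  choose g hg1 hg2 using hg
  have h3 : (univ.image g).card ≤ t := by
    refine card_image_le.trans ?_
    rw [card_univ, Fintype.card_coe]
    exact hcard
  have h4 : univ.image g ⊆ S := by
    intro x hx
    obtain ⟨z, -, rfl⟩ := mem_image.mp hx
    exact hg1 z
  obtain ⟨T, hT1, hT2, hT3⟩ := exists_subsuperset_card_eq h4 h3 hS
  refine ⟨T, hT2, hT3, convexHull_mono ?_ hy⟩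
  intro z hz
  exact ⟨g ⟨z, hz⟩, hT1 (mem_image_of_mem _ (mem_univ _)), hg2 ⟨z, hz⟩⟩

theorem exists_minpt (u : ι → F) : ∃ p : Finset ι → F, ∀ S : Finset ι, S.Nonempty →
    p S ∈ convexHull ℝ (u '' (S : Set ι)) ∧
    ∀ y ∈ convexHull ℝ (u '' (S : Set ι)), ‖p S‖ ^ 2 ≤ inner ℝ (p S) y := by
  classical
  have h : ∀ S : Finset ι, ∃ p : F, S.Nonempty → p ∈ convexHull ℝ (u '' (S : Set ι)) ∧
      ∀ y ∈ convexHull ℝ (u '' (S : Set ι)), ‖p‖ ^ 2 ≤ inner ℝ p y := by
    intro S
    by_cases hS : S.Nonempty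
    · have hne : (convexHull ℝ (u '' (S : Set ι))).Nonempty := by
        rw [convexHull_nonempty_iff]
        exact (Finset.coe_nonempty.mpr hS).image u
      have hcpt : IsCompact (convexHull ℝ (u '' (S : Set ι))) :=
        (S.finite_toSet.image u).isCompact_convexHull ℝ
      obtain ⟨v, hv, hv2⟩ := exists_norm_eq_iInf_of_complete_convex hne hcpt.isComplete
        (convex_convexHull ℝ _) 0
      rw [norm_eq_iInf_iff_real_inner_le_zero (convex_convexHull ℝ _) hv] at hv2
      refine ⟨v, fun _ => ⟨hv, fun y hy => ?_⟩⟩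
      have := hv2 y hy
      rw [zero_sub, inner_neg_left, inner_sub_right, real_inner_self_eq_norm_sq] at this
      linarith
    · exact ⟨0, fun h => absurd h hS⟩
  choose p hp using h
  exact ⟨p, hp⟩

theorem zero_notMem_of_pos {u : ι → F} {S : Finset ι} (h : Pos u S) :
    (0 : F) ∉ convexHull ℝ (u '' (S : Set ι)) := by
  obtain ⟨w, hw⟩ := h
  intro h0
  have hconv : Convex ℝ {y : F | 0 < inner ℝ w y} := by
    intro a ha b hb s t hs ht hst
    simp only [Set.mem_ofPred_eq] at ha hb ⊢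
    rw [inner_add_right, inner_smul_right, inner_smul_right]
    rcases hs.eq_or_lt with rfl | hs'
    · have : t = 1 := by linarith
      subst this
      simpa using hb
    · have h1 := mul_pos hs' ha
      have h2 := mul_nonneg ht hb.le
      linarith
  have hsub : u '' (S : Set ι) ⊆ {y : F | 0 < inner ℝ w y} := by
    rintro _ ⟨x, hx, rfl⟩
    exact hw x hx
  have := convexHull_min hsub hconv h0
  simp at this

theorem pos_of_zero_notMem {u : ι → F} {S : Finset ι} (hS : S.Nonempty) {p : F}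
    (hp1 : p ∈ convexHull ℝ (u '' (S : Set ι)))
    (hp : ∀ y ∈ convexHull ℝ (u '' (S : Set ι)), ‖p‖ ^ 2 ≤ inner ℝ p y)
    (h : (0 : F) ∉ convexHull ℝ (u '' (S : Set ι))) : ∀ x ∈ S, 0 < inner ℝ p (u x) := by
  intro x hx
  have hne : p ≠ 0 := by
    rintro rfl
    exact h hp1
  have h1 := hp (u x) (subset_convexHull ℝ _ ⟨x, hx, rfl⟩)
  have h2 : 0 < ‖p‖ ^ 2 := by positivity
  linarith

end core

theorem choose_ratio (a b r : ℕ) (hab : a ≤ b) : a.choose r * b ^ r ≤ b.choose r * a ^ r := by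
  induction r with
  | zero => simp
  | succ r ih =>
    have h1 : (a.choose (r + 1) * b ^ (r + 1)) * (r + 1) ≤
        (b.choose (r + 1) * a ^ (r + 1)) * (r + 1) := by
      have e1 : (a.choose (r + 1) * b ^ (r + 1)) * (r + 1) =
          (a.choose r * b ^ r) * ((a - r) * b) := by
        have := Nat.choose_succ_right_eq a r
        calc (a.choose (r + 1) * b ^ (r + 1)) * (r + 1)
            = (a.choose (r + 1) * (r + 1)) * b ^ (r + 1) := by ring
          _ = (a.choose r * (a - r)) * b ^ (r + 1) := by rw [this]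
          _ = _ := by ring
      have e2 : (b.choose (r + 1) * a ^ (r + 1)) * (r + 1) =
          (b.choose r * a ^ r) * ((b - r) * a) := by
        have := Nat.choose_succ_right_eq b r
        calc (b.choose (r + 1) * a ^ (r + 1)) * (r + 1)
            = (b.choose (r + 1) * (r + 1)) * a ^ (r + 1) := by ring
          _ = (b.choose r * (b - r)) * a ^ (r + 1) := by rw [this]
          _ = _ := by ring
      rw [e1, e2]
      apply Nat.mul_le_mul ih
      rcases Nat.lt_or_ge a r with h | h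
      · have : a - r = 0 := by omega
        rw [this]
        simp
      · obtain ⟨a', rfl⟩ := Nat.exists_eq_add_of_le h
        obtain ⟨b', rfl⟩ := Nat.exists_eq_add_of_le (h.trans hab)
        have h2 : r + a' - r = a' := by omega
        have h3 : r + b' - r = b' := by omega
        rw [h2, h3]
        have : a' ≤ b' := by omega
        nlinarith
    exact Nat.le_of_mul_le_mul_right h1 (by omega)

theorem count_sup {ι : Type} [DecidableEq ι] (X T : Finset ι) (M : ℕ) (hT : T ⊆ X) :
    ((X.powersetCard M).filter fun S => T ⊆ S).card ≤ (X.card - T.card).choose (M - T.card) := by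
  rw [← card_sdiff_of_subset hT, ← card_powersetCard]
  apply card_le_card_of_injOn (fun S => S \ T)
  · intro S hS
    simp only [coe_filter, mem_powersetCard, Set.mem_ofPred_eq] at hS
    simp only [mem_coe, mem_powersetCard]
    refine ⟨sdiff_subset_sdiff hS.1.1 (Subset.refl _), ?_⟩
    rw [card_sdiff_of_subset hS.2, hS.1.2]
  · intro S hS S' hS' h
    simp only [coe_filter, mem_powersetCard, Set.mem_ofPred_eq] at hS hS'
    simp only at h
    rw [← sdiff_union_of_subset hS.2, ← sdiff_union_of_subset hS'.2, h]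

theorem core_count {ι : Type} [DecidableEq ι] (t M K : ℕ) (X : Finset ι)
    (G : Finset ι → Finset ι) (Bad : Finset (Finset ι)) (hBad : Bad ⊆ X.powersetCard t)
    (hcov : ∀ S ∈ X.powersetCard M, (∃ T ∈ Bad, T ⊆ S) ∨
      ∃ T ∈ X.powersetCard t, T ⊆ S ∧ S ⊆ G T)
    (hK : ∀ T ∈ X.powersetCard t, (G T).card ≤ K) :
    X.card.choose M ≤ Bad.card * (X.card - t).choose (M - t) +
      (X.card.choose t) * (K - t).choose (M - t) := by
  have h1 : X.powersetCard M ⊆ (Bad.biUnion fun T => (X.powersetCard M).filter fun S => T ⊆ S) ∪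
      ((X.powersetCard t).biUnion fun T => (X.powersetCard M).filter fun S => T ⊆ S ∧ S ⊆ G T) := by
    intro S hS
    rw [mem_union, mem_biUnion, mem_biUnion]
    rcases hcov S hS with ⟨T, hT, hTS⟩ | ⟨T, hT, hTS, hSG⟩
    · left
      exact ⟨T, hT, mem_filter.mpr ⟨hS, hTS⟩⟩
    · right
      exact ⟨T, hT, mem_filter.mpr ⟨hS, hTS, hSG⟩⟩
  have h2 := (card_le_card h1).trans (card_union_le _ _)
  rw [card_powersetCard] at h2
  refine h2.trans (Nat.add_le_add ?_ ?_)
  · refine card_biUnion_le.trans ?_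
    rw [← smul_eq_mul]
    apply sum_le_card_nsmul
    intro T hT
    have hT' := mem_powersetCard.mp (hBad hT)
    have := count_sup X T M hT'.1
    rwa [hT'.2] at this
  · refine card_biUnion_le.trans ?_
    rw [← card_powersetCard t X, ← smul_eq_mul]
    apply sum_le_card_nsmul
    intro T hT
    have hT' := mem_powersetCard.mp hT
    by_cases hTG : T ⊆ G T
    · have h3 := count_sup (G T) T M hTG
      rw [hT'.2] at h3
      have h4 : ((X.powersetCard M).filter fun S => T ⊆ S ∧ S ⊆ G T).card ≤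
          (((G T).powersetCard M).filter fun S => T ⊆ S).card := by
        apply card_le_card
        intro S hS
        simp only [mem_filter, mem_powersetCard] at hS ⊢
        exact ⟨⟨hS.2.2, hS.1.2⟩, hS.2.1⟩
      refine h4.trans (h3.trans (Nat.choose_le_choose _ ?_))
      have := hK T hT
      omega
    · have : ((X.powersetCard M).filter fun S => T ⊆ S ∧ S ⊆ G T) = ∅ := by
        rw [filter_eq_empty_iff]
        intro S _ h
        exact hTG (h.1.trans h.2)
      rw [this]
      simp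

theorem exists_M (t : ℕ) (δ : ℝ) (hδ0 : 0 < δ) (hδ1 : δ < 1) :
    ∃ M : ℕ, t ≤ M ∧ (M.choose t : ℝ) * (1 - δ) ^ (M - t) ≤ 1 / 4 := by
  have h1 := tendsto_pow_const_mul_const_pow_of_abs_lt_one t (r := 1 - δ)
    (by rw [abs_lt]; constructor <;> linarith)
  have hpos : (0 : ℝ) < (1 - δ) ^ t / 4 := by
    have : (0 : ℝ) < 1 - δ := by linarith
    positivity
  have h2 := (h1.eventually (gt_mem_nhds hpos)).and (Filter.eventually_ge_atTop t)
  obtain ⟨M, hM1, hM2⟩ := h2.exists
  refine ⟨M, hM2, ?_⟩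
  have h3 : (M.choose t : ℝ) ≤ (M : ℝ) ^ t := by
    exact_mod_cast Nat.choose_le_pow M t
  have h4 : (0 : ℝ) < (1 - δ) ^ t := by
    have : (0 : ℝ) < 1 - δ := by linarith
    positivity
  have h5 : (0 : ℝ) < (1 - δ) ^ (M - t) := by
    have : (0 : ℝ) < 1 - δ := by linarith
    positivity
  have h6 : (1 - δ) ^ M = (1 - δ) ^ (M - t) * (1 - δ) ^ t := by
    rw [← pow_add]
    congr 1
    omega
  have h7 : (M.choose t : ℝ) * (1 - δ) ^ (M - t) * (1 - δ) ^ t ≤ 1 / 4 * (1 - δ) ^ t := by
    calc (M.choose t : ℝ) * (1 - δ) ^ (M - t) * (1 - δ) ^ t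
        = (M.choose t : ℝ) * (1 - δ) ^ M := by rw [h6]; ring
      _ ≤ (M : ℝ) ^ t * (1 - δ) ^ M := by
          apply mul_le_mul_of_nonneg_right h3
          rw [h6]
          positivity
      _ ≤ 1 / 4 * (1 - δ) ^ t := by linarith
  exact le_of_mul_le_mul_right h7 h4

theorem core {ι F : Type} [DecidableEq ι] [NormedAddCommGroup F] [InnerProductSpace ℝ F]
    [FiniteDimensional ℝ F] (t M : ℕ) (ht : Module.finrank ℝ F + 1 = t) (δ : ℝ) (hδ0 : 0 < δ)
    (hδ1 : δ < 1) (htM : t ≤ M) (hM : (M.choose t : ℝ) * (1 - δ) ^ (M - t) ≤ 1 / 4)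
    (u : ι → F) (X : Finset ι) (htX : t ≤ X.card) (Bad : Finset (Finset ι))
    (hBad : ∀ T, T ∈ Bad ↔ T ∈ X.powersetCard t ∧ ¬ Pos u T)
    (hε : (Bad.card : ℝ) ≤ 1 / (4 * (M.choose t : ℝ)) * (X.card.choose t : ℝ)) :
    ∃ w : F, ∀ G : Finset ι, (∀ x ∈ X, 0 < inner ℝ w (u x) → x ∈ G) →
      (1 - δ) * (X.card : ℝ) ≤ G.card := by
  classical
  obtain ⟨p, hp⟩ := exists_minpt u
  have ht1 : 1 ≤ t := by omega
  -- a set which is not good contains a bad `t`-subset
  have helly : ∀ S ⊆ X, t ≤ S.card → ¬ Pos u S → ∃ T ∈ Bad, T ⊆ S := by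
    intro S hSX hS hpos
    have hne : S.Nonempty := by
      rw [← card_pos]; omega
    have h0 : (0 : F) ∈ convexHull ℝ (u '' (S : Set ι)) := by
      by_contra h0
      exact hpos ⟨p S, pos_of_zero_notMem hne (hp S hne).1 (hp S hne).2 h0⟩
    obtain ⟨T, hTS, hTc, hT0⟩ := carath u S t ht hS 0 h0
    refine ⟨T, (hBad T).mpr ⟨mem_powersetCard.mpr ⟨hTS.trans hSX, hTc⟩, ?_⟩, hTS⟩
    intro h
    exact zero_notMem_of_pos h hT0
  have hcM : (0 : ℝ) < (M.choose t : ℝ) := by
    exact_mod_cast Nat.choose_pos htM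
  rcases Nat.lt_or_ge X.card M with hXM | hXM
  · -- few points: there are no bad sets at all
    have hB0 : Bad = ∅ := by
      rw [← card_eq_zero]
      have h1 : (X.card.choose t : ℝ) ≤ (M.choose t : ℝ) := by
        exact_mod_cast Nat.choose_le_choose t hXM.le
      have h2 : (Bad.card : ℝ) ≤ 1 / 4 := by
        calc (Bad.card : ℝ) ≤ 1 / (4 * (M.choose t : ℝ)) * (X.card.choose t : ℝ) := hε
          _ ≤ 1 / (4 * (M.choose t : ℝ)) * (M.choose t : ℝ) := by
              apply mul_le_mul_of_nonneg_left h1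
              positivity
          _ = 1 / 4 := by field_simp
      have h3 : (Bad.card : ℝ) < 1 := by linarith
      have h4 : Bad.card < 1 := by exact_mod_cast h3
      omega
    have hX : Pos u X := by
      by_contra h
      obtain ⟨T, hT, -⟩ := helly X (Subset.refl _) htX h
      rw [hB0] at hT
      simp at hT
    obtain ⟨w, hw⟩ := hX
    refine ⟨w, fun G hG => ?_⟩
    have h1 : X.card ≤ G.card := card_le_card fun x hx => hG x hx (hw x hx)
    have h2 : (X.card : ℝ) ≤ G.card := by exact_mod_cast h1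
    have h3 : (0 : ℝ) ≤ X.card := Nat.cast_nonneg _
    nlinarith
  · by_contra hcon
    push Not at hcon
    let G : Finset ι → Finset ι := fun T => X.filter fun x => 0 < inner ℝ (p T) (u x)
    set n := X.card with hn
    have hGc : ∀ T, ((G T).card : ℝ) < (1 - δ) * n := by
      intro T
      obtain ⟨G', hG1, hG2⟩ := hcon (p T)
      refine lt_of_le_of_lt ?_ hG2
      have : G T ⊆ G' := by
        intro x hx
        have := mem_filter.mp hx
        exact hG1 x this.1 this.2
      exact_mod_cast card_le_card this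
    let K := ⌊(1 - δ) * (n : ℝ)⌋₊
    have hδn : (0 : ℝ) ≤ (1 - δ) * n := by
      have : (0 : ℝ) ≤ 1 - δ := by linarith
      positivity
    have hK : ∀ T ∈ X.powersetCard t, (G T).card ≤ K := fun T _ => Nat.le_floor (hGc T).le
    have hKn : (K : ℝ) ≤ (1 - δ) * n := Nat.floor_le hδn
    have hcov : ∀ S ∈ X.powersetCard M, (∃ T ∈ Bad, T ⊆ S) ∨
        ∃ T ∈ X.powersetCard t, T ⊆ S ∧ S ⊆ G T := by
      intro S hS
      obtain ⟨hSX, hSM⟩ := mem_powersetCard.mp hS
      by_cases hpos : Pos u S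
      · right
        have hne : S.Nonempty := by
          rw [← card_pos]; omega
        have h0 := zero_notMem_of_pos hpos
        obtain ⟨hp1, hp2⟩ := hp S hne
        obtain ⟨T, hTS, hTc, hT⟩ := carath u S t ht (by omega) _ hp1
        have hneT : T.Nonempty := by
          rw [← card_pos]; omega
        have hTS' : convexHull ℝ (u '' (T : Set ι)) ⊆ convexHull ℝ (u '' (S : Set ι)) :=
          convexHull_mono (Set.image_mono (by exact_mod_cast hTS))
        have heq : p T = p S := by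
          obtain ⟨hq1, hq2⟩ := hp T hneT
          have e1 := hq2 _ hT
          have e2 := hp2 _ (hTS' hq1)
          have e3 : ‖p T - p S‖ ^ 2 ≤ 0 := by
            rw [@norm_sub_sq_real]
            have := real_inner_comm (p T) (p S)
            linarith
          have e4 : ‖p T - p S‖ = 0 := by
            have := sq_nonneg ‖p T - p S‖
            exact pow_eq_zero_iff (two_ne_zero) |>.mp (le_antisymm e3 this)
          exact sub_eq_zero.mp (norm_eq_zero.mp e4)
        refine ⟨T, mem_powersetCard.mpr ⟨hTS.trans hSX, hTc⟩, hTS, ?_⟩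
        intro x hx
        refine mem_filter.mpr ⟨hSX hx, ?_⟩
        rw [heq]
        exact pos_of_zero_notMem hne hp1 hp2 h0 x hx
      · left
        exact helly S hSX (by omega) hpos
    have hmain := core_count t M K X G Bad (fun T hT => ((hBad T).mp hT).1) hcov hK
    rw [← hn] at hmain
    have hmul := Nat.choose_mul (n := n) htM
    have hratio := choose_ratio (K - t) (n - t) (M - t) (by
      have : (K : ℝ) ≤ n := by
        refine hKn.trans ?_
        have : (0 : ℝ) ≤ n := Nat.cast_nonneg _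
        nlinarith
      have : K ≤ n := by exact_mod_cast this
      omega)
    set b := (n - t).choose (M - t) with hb
    set k := (K - t).choose (M - t) with hk
    have hbpos : (0 : ℝ) < b := by
      have : 0 < b := Nat.choose_pos (by omega)
      exact_mod_cast this
    have hntpos : (0 : ℝ) < (n.choose t : ℝ) := by
      exact_mod_cast Nat.choose_pos (by omega)
    -- the ratio bound
    have hk' : (k : ℝ) ≤ (1 - δ) ^ (M - t) * b := by
      rcases Nat.eq_zero_or_pos (n - t) with h0 | h0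
      · have : M - t = 0 := by omega
        rw [hk, hb, this]
        simp
      · have h1 : ((K - t : ℕ) : ℝ) ≤ (1 - δ) * ((n - t : ℕ) : ℝ) := by
          have h2 : ((n - t : ℕ) : ℝ) = n - t := by
            rw [Nat.cast_sub (by omega)]
          rw [h2]
          rcases Nat.lt_or_ge K t with h | h
          · have : K - t = 0 := by omega
            rw [this]
            have h3 : (0 : ℝ) ≤ 1 - δ := by linarith
            have h4 : (0 : ℝ) ≤ (n : ℝ) - t := by
              rw [← h2]; positivity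
            simpa using mul_nonneg h3 h4
          · rw [Nat.cast_sub h]
            have : (0 : ℝ) ≤ t := Nat.cast_nonneg _
            nlinarith
        have h2 : (0 : ℝ) < ((n - t : ℕ) : ℝ) := by exact_mod_cast h0
        have h3 : (k : ℝ) * ((n - t : ℕ) : ℝ) ^ (M - t) ≤ b * ((K - t : ℕ) : ℝ) ^ (M - t) := by
          exact_mod_cast hratio
        have h4 : ((K - t : ℕ) : ℝ) ^ (M - t) ≤ ((1 - δ) * ((n - t : ℕ) : ℝ)) ^ (M - t) :=
          pow_le_pow_left₀ (Nat.cast_nonneg _) h1 _
        have h5 : (k : ℝ) * ((n - t : ℕ) : ℝ) ^ (M - t) ≤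
            ((1 - δ) ^ (M - t) * b) * ((n - t : ℕ) : ℝ) ^ (M - t) := by
          refine h3.trans ((mul_le_mul_of_nonneg_left h4 hbpos.le).trans (le_of_eq ?_))
          rw [mul_pow]
          ring
        exact le_of_mul_le_mul_right h5 (by positivity)
    have hmain' : (n.choose M : ℝ) ≤ Bad.card * b + (n.choose t : ℝ) * k := by
      exact_mod_cast hmain
    have hmul' : (n.choose M : ℝ) * (M.choose t : ℝ) = (n.choose t : ℝ) * b := by
      exact_mod_cast hmul
    set c : ℝ := (M.choose t : ℝ) with hc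
    have e1 : (n.choose t : ℝ) * b ≤ c * (Bad.card * b) + c * ((n.choose t : ℝ) * k) := by
      rw [← hmul']
      nlinarith
    have e2 : c * (Bad.card * b) ≤ 1 / 4 * ((n.choose t : ℝ) * b) := by
      have : c * Bad.card ≤ 1 / 4 * (n.choose t : ℝ) := by
        calc c * Bad.card ≤ c * (1 / (4 * c) * (n.choose t : ℝ)) :=
              mul_le_mul_of_nonneg_left hε hcM.le
          _ = 1 / 4 * (n.choose t : ℝ) := by field_simp
      nlinarith
    have e3 : c * ((n.choose t : ℝ) * k) ≤ 1 / 4 * ((n.choose t : ℝ) * b) := by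
      calc c * ((n.choose t : ℝ) * k) ≤ c * ((n.choose t : ℝ) * ((1 - δ) ^ (M - t) * b)) := by
            gcongr
        _ = (c * (1 - δ) ^ (M - t)) * ((n.choose t : ℝ) * b) := by ring
        _ ≤ 1 / 4 * ((n.choose t : ℝ) * b) := by
            apply mul_le_mul_of_nonneg_right hM
            positivity
    have e4 : (0 : ℝ) < (n.choose t : ℝ) * b := by positivity
    linarith

/-! ### From hyperplanes to half-spaces through the origin -/

/-- the lift `x ↦ (1, x)` -/
noncomputable def lift {d : ℕ} (x : Fin d → ℝ) : EuclideanSpace ℝ (Fin (d + 1)) :=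
  WithLp.toLp 2 (Fin.cons 1 x : Fin (d + 1) → ℝ)

theorem inner_lift {d : ℕ} (w : EuclideanSpace ℝ (Fin (d + 1))) (x : Fin d → ℝ) :
    inner ℝ w (lift x) = w 0 + (fun i : Fin d => w i.succ) ⬝ᵥ x := by
  rw [lift, PiLp.inner_apply, Fin.sum_univ_succ]
  simp [dotProduct, mul_comm]

theorem separated_of {d : ℕ} (hd : 1 ≤ d) (P Q : Finset (Fin d → ℝ))
    (w : EuclideanSpace ℝ (Fin (d + 1))) (hP : ∀ x ∈ P, 0 < inner ℝ w (lift x))
    (hQ : ∀ x ∈ Q, inner ℝ w (lift x) < 0) : Separated P Q := by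
  classical
  simp only [inner_lift] at hP hQ
  have hex : ∃ a : Fin d → ℝ, a ≠ 0 := by
    refine ⟨fun _ => 1, fun h => ?_⟩
    have := congrFun h ⟨0, hd⟩
    simp at this
  by_cases hPe : P = ∅
  · obtain ⟨a, ha⟩ := hex
    obtain ⟨m, hm⟩ := (Q.image fun x => a ⬝ᵥ x).exists_le
    refine ⟨a, m + 1, ha, by simp [hPe], fun x hx => ?_⟩
    have := hm _ (mem_image_of_mem (fun x => a ⬝ᵥ x) hx)
    linarith
  · by_cases hQe : Q = ∅
    · obtain ⟨a, ha⟩ := hex
      obtain ⟨m, hm⟩ := (P.image fun x => -(a ⬝ᵥ x)).exists_le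
      refine ⟨a, -m - 1, ha, fun x hx => ?_, by simp [hQe]⟩
      have := hm _ (mem_image_of_mem (fun x => -(a ⬝ᵥ x)) hx)
      linarith
    · refine ⟨fun i => w i.succ, - w 0, ?_, ?_, ?_⟩
      · intro h0
        obtain ⟨x, hx⟩ := nonempty_iff_ne_empty.mpr hPe
        obtain ⟨y, hy⟩ := nonempty_iff_ne_empty.mpr hQe
        have h1 := hP x hx
        have h2 := hQ y hy
        rw [h0] at h1 h2
        simp at h1 h2
        linarith
      · intro x hx
        have := hP x hx
        linarith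
      · intro x hx
        have := hQ x hx
        linarith

theorem of_separated {d : ℕ} (P Q : Finset (Fin d → ℝ)) (h : Separated P Q) :
    ∃ w : EuclideanSpace ℝ (Fin (d + 1)), (∀ x ∈ P, 0 < inner ℝ w (lift x)) ∧
      (∀ x ∈ Q, inner ℝ w (lift x) < 0) := by
  obtain ⟨a, c, -, hP, hQ⟩ := h
  refine ⟨WithLp.toLp 2 (Fin.cons (-c) a : Fin (d + 1) → ℝ), ?_, ?_⟩
  · intro x hx
    rw [inner_lift]
    have := hP x hx
    simp only [Fin.cons_zero, Fin.cons_succ]
    linarith
  · intro x hx
    rw [inner_lift]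
    have := hQ x hx
    simp only [Fin.cons_zero, Fin.cons_succ]
    linarith

/-- The statement with `ε` and `δ`. -/
theorem main (d : ℕ) (hd : 1 ≤ d) (δ : ℝ) (hδ0 : 0 < δ) (hδ1 : δ < 1) :
    ∃ ε₀ : ℝ, 0 < ε₀ ∧ ∀ (N : ℕ) (A B : Finset (Fin d → ℝ)), d + 2 ≤ 2 * N → Disjoint A B →
      A.card = N → B.card = N →
      (1 - ε₀) * ((2 * N).choose (d + 2) : ℝ) ≤
        (numGood A B : ℝ) →
      ∃ A' B' : Finset (Fin d → ℝ), A' ⊆ A ∧ B' ⊆ B ∧ Separated A' B' ∧
        (1 - 2 * δ) * N ≤ A'.card ∧ (1 - 2 * δ) * N ≤ B'.card := by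
  classical
  obtain ⟨M, htM, hM⟩ := exists_M (d + 2) δ hδ0 hδ1
  have hcM : (0 : ℝ) < (M.choose (d + 2) : ℝ) := by
    exact_mod_cast Nat.choose_pos htM
  refine ⟨1 / (4 * (M.choose (d + 2) : ℝ)), by positivity, ?_⟩
  intro N A B hN hAB hA hB hgood
  have hcard : (A ∪ B).card = 2 * N := by
    rw [card_union_of_disjoint hAB, hA, hB]
    ring
  let u : (Fin d → ℝ) → EuclideanSpace ℝ (Fin (d + 1)) := fun x =>
    if x ∈ A then lift x else - lift x
  have huA : ∀ x ∈ A, u x = lift x := fun x hx => by simp [u, hx]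
  have huB : ∀ x ∈ B, u x = - lift x := fun x hx => by
    have : x ∉ A := fun h => disjoint_left.mp hAB h hx
    simp [u, this]
  have key : ∀ T ⊆ A ∪ B, (Pos u T ↔ Separated (A ∩ T) (B ∩ T)) := by
    intro T hT
    constructor
    · rintro ⟨w, hw⟩
      refine separated_of hd _ _ w ?_ ?_
      · intro x hx
        rw [mem_inter] at hx
        have := hw x hx.2
        rwa [huA x hx.1] at this
      · intro x hx
        rw [mem_inter] at hx
        have := hw x hx.2
        rw [huB x hx.1, inner_neg_right] at this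
        linarith
    · intro h
      obtain ⟨w, hw1, hw2⟩ := of_separated _ _ h
      refine ⟨w, fun x hx => ?_⟩
      rcases mem_union.mp (hT hx) with hxA | hxB
      · rw [huA x hxA]
        exact hw1 x (mem_inter.mpr ⟨hxA, hx⟩)
      · rw [huB x hxB, inner_neg_right]
        have := hw2 x (mem_inter.mpr ⟨hxB, hx⟩)
        linarith
  let Bad := ((A ∪ B).powersetCard (d + 2)).filter fun S => ¬ Separated (A ∩ S) (B ∩ S)
  have hBad : ∀ T, T ∈ Bad ↔ T ∈ (A ∪ B).powersetCard (d + 2) ∧ ¬ Pos u T := by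
    intro T
    rw [mem_filter]
    constructor
    · rintro ⟨h1, h2⟩
      exact ⟨h1, fun h => h2 ((key T (mem_powersetCard.mp h1).1).mp h)⟩
    · rintro ⟨h1, h2⟩
      exact ⟨h1, fun h => h2 ((key T (mem_powersetCard.mp h1).1).mpr h)⟩
  have hsum := card_filter_add_card_filter_not (s := (A ∪ B).powersetCard (d + 2))
    (fun S => Separated (A ∩ S) (B ∩ S))
  rw [card_powersetCard, hcard] at hsum
  have hsum' : (numGood A B : ℝ) + (Bad.card : ℝ) = ((2 * N).choose (d + 2) : ℝ) := by
    rw [← hsum]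
    unfold numGood
    push_cast
    congr! 3
  obtain ⟨w, hw⟩ := core (F := EuclideanSpace ℝ (Fin (d + 1))) (d + 2) M (by simp) δ hδ0 hδ1 htM hM u
    (A ∪ B) (by rw [hcard]; exact hN) Bad hBad (by
      rw [hcard]
      linarith)
  let A' := A.filter fun x => 0 < inner ℝ w (u x)
  let B' := B.filter fun x => 0 < inner ℝ w (u x)
  have hc := hw (A' ∪ B') (by
    intro x hx h
    rcases mem_union.mp hx with hxA | hxB
    · exact mem_union_left _ (mem_filter.mpr ⟨hxA, h⟩)
    · exact mem_union_right _ (mem_filter.mpr ⟨hxB, h⟩))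
  have h1 : ((A' ∪ B').card : ℝ) ≤ A'.card + B'.card := by
    exact_mod_cast card_union_le _ _
  have h2 : (A'.card : ℝ) ≤ N := by
    rw [← hA]
    exact_mod_cast card_le_card (filter_subset _ _)
  have h3 : (B'.card : ℝ) ≤ N := by
    rw [← hB]
    exact_mod_cast card_le_card (filter_subset _ _)
  rw [hcard] at hc
  push_cast at hc
  refine ⟨A', B', filter_subset _ _, filter_subset _ _, ?_, by linarith, by linarith⟩
  refine separated_of hd _ _ w ?_ ?_
  · intro x hx
    obtain ⟨hxA, h⟩ := mem_filter.mp hx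
    rwa [huA x hxA] at h
  · intro x hx
    obtain ⟨hxB, h⟩ := mem_filter.mp hx
    rw [huB x hxB, inner_neg_right] at h
    linarith

/-- **A positive-fraction version of Kirchberger's theorem.** For every `d ≥ 1` there is a function
`g` with `g ε → 0` as `ε → 0⁺` such that for all disjoint `N`-point sets `A, B ⊆ ℝ^d` (general
position is not needed; `2 N ≥ d + 2`, so that there are `(d+2)`-subsets at all), if at least a
`1 - ε` fraction of the `(d+2)`-subsets of `A ∪ B` is good, then some `A' ⊆ A`, `B' ⊆ B` with at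
least `(1 - g ε) N` points each are separated by a hyperplane. -/
theorem result (d : ℕ) (hd : 1 ≤ d) : ∃ g : ℝ → ℝ,
    Filter.Tendsto g (nhdsWithin 0 (Set.Ioi 0)) (nhds 0) ∧
    ∀ ε : ℝ, 0 < ε → ∀ (N : ℕ) (A B : Finset (Fin d → ℝ)), d + 2 ≤ 2 * N → Disjoint A B →
      A.card = N → B.card = N →
      (1 - ε) * ((2 * N).choose (d + 2) : ℝ) ≤
        (numGood A B : ℝ) →
      ∃ A' B' : Finset (Fin d → ℝ), A' ⊆ A ∧ B' ⊆ B ∧ Separated A' B' ∧
        (1 - g ε) * N ≤ A'.card ∧ (1 - g ε) * N ≤ B'.card := by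
  classical
  let good : ℝ → ℝ → Prop := fun ε γ => ∀ (N : ℕ) (A B : Finset (Fin d → ℝ)),
      d + 2 ≤ 2 * N → Disjoint A B → A.card = N → B.card = N →
      (1 - ε) * ((2 * N).choose (d + 2) : ℝ) ≤
        (numGood A B : ℝ) →
      ∃ A' B' : Finset (Fin d → ℝ), A' ⊆ A ∧ B' ⊆ B ∧ Separated A' B' ∧
        (1 - γ) * N ≤ A'.card ∧ (1 - γ) * N ≤ B'.card
  have hone : ∀ ε, good ε 1 := by
    intro ε N A B _ _ _ _ _
    refine ⟨∅, ∅, empty_subset _, empty_subset _, ?_, by simp, by simp⟩
    exact separated_of hd _ _ 0 (by simp) (by simp)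
  have hmono : ∀ ε γ γ', good ε γ → γ ≤ γ' → good ε γ' := by
    intro ε γ γ' h hle N A B h1 h2 h3 h4 h5
    obtain ⟨A', B', k1, k2, k3, k4, k5⟩ := h N A B h1 h2 h3 h4 h5
    have : (0 : ℝ) ≤ N := Nat.cast_nonneg _
    exact ⟨A', B', k1, k2, k3, by nlinarith, by nlinarith⟩
  have hmono2 : ∀ ε ε' γ, good ε γ → ε' ≤ ε → good ε' γ := by
    intro ε ε' γ h hle N A B h1 h2 h3 h4 h5
    apply h N A B h1 h2 h3 h4
    have : (0 : ℝ) ≤ ((2 * N).choose (d + 2) : ℝ) := Nat.cast_nonneg _
    nlinarith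
  let Sset : ℝ → Set ℝ := fun ε => {γ | 0 ≤ γ ∧ good ε γ}
  have hbdd : ∀ ε, BddBelow (Sset ε) := fun ε => ⟨0, fun γ h => h.1⟩
  have hne : ∀ ε, (Sset ε).Nonempty := fun ε => ⟨1, zero_le_one, hone ε⟩
  refine ⟨fun ε => sInf (Sset ε) + ε, ?_, ?_⟩
  · rw [Metric.tendsto_nhdsWithin_nhds]
    intro η hη
    set δ : ℝ := min (1 / 2) (η / 4) with hδ
    have hδ0 : 0 < δ := by positivity
    have hδ1 : δ < 1 := lt_of_le_of_lt (min_le_left _ _) (by norm_num)
    obtain ⟨ε₀, hε₀, hmain⟩ := main d hd δ hδ0 hδ1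
    have hg : good ε₀ (2 * δ) := fun N A B h1 h2 h3 h4 h5 => hmain N A B h1 h2 h3 h4 h5
    refine ⟨min ε₀ (η / 4), by positivity, ?_⟩
    intro ε hε hdist
    simp only [Set.mem_Ioi] at hε
    rw [Real.dist_eq, sub_zero, abs_of_pos hε] at hdist
    have e1 : ε < ε₀ := lt_of_lt_of_le hdist (min_le_left _ _)
    have e2 : ε < η / 4 := lt_of_lt_of_le hdist (min_le_right _ _)
    have e3 : sInf (Sset ε) ≤ 2 * δ := csInf_le (hbdd ε) ⟨by positivity, hmono2 _ _ _ hg e1.le⟩
    have e4 : 0 ≤ sInf (Sset ε) := le_csInf (hne ε) fun γ h => h.1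
    have e5 : δ ≤ η / 4 := min_le_right _ _
    rw [Real.dist_eq, sub_zero, abs_of_nonneg (by linarith)]
    linarith
  · intro ε hε
    obtain ⟨γ, hγ1, hγ2⟩ := exists_lt_of_csInf_lt (hne ε) (show sInf (Sset ε) < sInf (Sset ε) + ε by
      linarith)
    exact hmono _ _ _ hγ1.2 hγ2.le

end Pool.Agent.Results.MP_ff3a4f_co.NearlyAllSeparated
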